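import Pool.Agent.W2helper44.PT.Stm
import Pool.Agent.W258.FM.TameFin

/-!
# Project PT (MP_a3c811_ag), piece CYC: the image of the inertia group in a pro-`ℓ` image is procyclic
-/

set_option autoImplicit false

namespace Pool.Agent.W2helper85.PT

open NumberField Filter Topology
open Pool.Agent.W569.FM Pool.Agent.W2helper44.PT

variable {K : Type} [Field K] [NumberField K]

/-- the elements of `H` in the inertia group at `P` -/
def IH (H : Subgroup (GF K)) (P : Ideal (OO K)) : Subgroup (GF K) where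
  carrier := {τ | τ ∈ H ∧ InInertia P τ}
  one_mem' := ⟨H.one_mem, fun x => by simp⟩
  mul_mem' := by
    rintro a b ⟨ha, ha'⟩ ⟨hb, hb'⟩
    refine ⟨H.mul_mem ha hb, fun x => ?_⟩
    have e : (a * b) • x - x = (a • (b • x) - b • x) + (b • x - x) := by
      rw [mul_smul]; ring
    rw [e]
    exact P.add_mem (ha' _) (hb' _)
  inv_mem' := by
    rintro a ⟨ha, ha'⟩
    refine ⟨H.inv_mem ha, fun x => ?_⟩
    have h := ha' (a⁻¹ • x)
    rw [smul_inv_smul] at h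
    rw [← neg_sub]
    exact P.neg_mem h

theorem cyc1 (ℓ : ℕ) [Fact ℓ.Prime] (H : Subgroup (GF K)) (P : Ideal (OO K)) (hP : P.IsMaximal)
    (hℓ : (ℓ : OO K) ∉ P) (W : Subgroup (GF K)) (hW : W.Normal) (hWo : IsOpen (W : Set (GF K)))
    (hHW : ∀ x ∈ H, ∃ k : ℕ, x ^ (ℓ ^ k) ∈ W) :
    ∃ τ₁ ∈ IH H P, ∀ τ ∈ IH H P, ∃ j : ℕ, τ⁻¹ * τ₁ ^ j ∈ W := by
  -- the field
  set Wc : ClosedSubgroup (GF K) := ⟨W, W.isClosed_of_isOpen hWo⟩ with hWc
  set L : IntermediateField K (AlgebraicClosure K) := IntermediateField.fixedField W with hL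
  have hLW : L.fixingSubgroup = W := InfiniteGalois.fixingSubgroup_fixedField Wc
  have hfd : FiniteDimensional K L := by
    rw [← InfiniteGalois.isOpen_iff_finite]
    rw [hLW]
    exact hWo
  have hgal : IsGalois K L := by
    rw [← InfiniteGalois.normal_iff_isGalois, hLW]
    exact hW
  have hnf : NumberField L := NumberField.of_module_finite K L
  set r : GF K →* Gal(L/K) := AlgEquiv.restrictNormalHom L with hr
  have hrk : r.ker = W := by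
    rw [hr, IntermediateField.restrictNormalHom_ker, hLW]
  -- the prime
  set φ : 𝓞 L →+* OO K := algebraMap (𝓞 L) (OO K) with hφ
  have hcomm : ∀ (τ : GF K) (x : 𝓞 L), φ (r τ • x) = τ • φ x := by
    intro τ x
    apply RingOfIntegers.ext
    exact AlgEquiv.restrictNormal_commutes τ L (x : L)
  set P0 : Ideal (𝓞 L) := P.comap φ with hP0
  have hint : Algebra.IsIntegral (𝓞 L) (OO K) := by
    refine ⟨fun x => ?_⟩
    have h1 : IsIntegral ℤ x := RingOfIntegers.isIntegral x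
    exact h1.tower_top
  have hP0m : P0.IsMaximal := Ideal.isMaximal_comap_of_isIntegral_of_isMaximal P
  have hP0b : P0 ≠ ⊥ := Ring.ne_bot_of_isMaximal_of_not_isField hP0m (RingOfIntegers.not_isField L)
  -- the group
  set Hb : Subgroup Gal(L/K) := H.map r with hHb
  have hpg : IsPGroup ℓ Hb := by
    rintro ⟨_, x, hx, rfl⟩
    obtain ⟨k, hk⟩ := hHW x hx
    refine ⟨k, Subtype.ext ?_⟩
    change r x ^ (ℓ ^ k) = 1
    rw [← map_pow, ← MonoidHom.mem_ker, hrk]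
    exact hk
  obtain ⟨k, hk⟩ := IsPGroup.iff_card.1 hpg
  have hN : ((ℓ ^ k : ℕ) : 𝓞 L) ∉ P0 := by
    intro h
    push_cast at h
    have hpP : (ℓ : 𝓞 L) ∈ P0 := hP0m.isPrime.mem_of_pow_mem k h
    rw [hP0, Ideal.mem_comap, map_natCast] at hpP
    exact hℓ hpP
  have hGN : ∀ g : Hb, g ^ (ℓ ^ k) = 1 := by
    intro g
    rw [← hk]
    exact pow_card_eq_one'
  have hfaith : FaithfulSMul Hb (𝓞 L) := by
    refine ⟨?_⟩
    intro a b hab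
    apply Subtype.ext
    ext x
    obtain ⟨y, z, hz, rfl⟩ := IsFractionRing.div_surjective (A := 𝓞 L) x
    have ey : (a : Gal(L/K)) (algebraMap (𝓞 L) L y) = (b : Gal(L/K)) (algebraMap (𝓞 L) L y) :=
      congrArg (algebraMap (𝓞 L) L) (hab y)
    have ez : (a : Gal(L/K)) (algebraMap (𝓞 L) L z) = (b : Gal(L/K)) (algebraMap (𝓞 L) L z) :=
      congrArg (algebraMap (𝓞 L) L) (hab z)
    rw [map_div₀, map_div₀, ey, ez]
  obtain ⟨t₀, -, ht₀⟩ := Pool.Agent.W258.FM.tame_cyclic (R := 𝓞 L) (G := Hb) hP0m hP0b hN hGN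
  -- the image of the inertia group
  set D : Subgroup Gal(L/K) := (IH H P).map r with hD
  have hDle : D ≤ Subgroup.zpowers (t₀ : Gal(L/K)) := by
    rintro _ ⟨τ, ⟨hτH, hτI⟩, rfl⟩
    have h1 := ht₀ ⟨r τ, τ, hτH, rfl⟩ (by
      intro x
      rw [hP0, Ideal.mem_comap, map_sub]
      have := hcomm τ x
      change φ (r τ • x) - φ x ∈ P
      rw [this]
      exact hτI (φ x))
    obtain ⟨z, hz⟩ := h1
    refine ⟨z, ?_⟩
    have := congrArg Subtype.val hz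
    simpa using this
  have hDc : IsCyclic D := Subgroup.isCyclic_of_le hDle
  obtain ⟨⟨_, τ₁, hτ₁, rfl⟩, hgen⟩ := hDc.exists_generator
  refine ⟨τ₁, hτ₁, fun τ hτ => ?_⟩
  have h1 := hgen ⟨r τ, τ, hτ, rfl⟩
  rw [← mem_powers_iff_mem_zpowers] at h1
  obtain ⟨j, hj⟩ := h1
  refine ⟨j, ?_⟩
  rw [← hrk, MonoidHom.mem_ker, map_mul, map_inv, map_pow]
  have h2 := congrArg Subtype.val hj
  have h3 : r τ₁ ^ j = r τ := by simpa using h2
  rw [h3, inv_mul_cancel]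

/-- one element for all `W` below a fixed one -/
theorem cyc2 (ℓ : ℕ) [hl : Fact ℓ.Prime] (G : Type) [Group G] (I : Subgroup G) (W₀ W : Subgroup G)
    (hW₀n : W₀.Normal) (hWn : W.Normal) (hWW : W ≤ W₀) (τ₀ τ₁ : G) (hτ₀ : τ₀ ∈ I) (hτ₁ : τ₁ ∈ I)
    (h0 : ∀ τ ∈ I, ∃ j : ℕ, τ⁻¹ * τ₀ ^ j ∈ W₀) (h1 : ∀ τ ∈ I, ∃ j : ℕ, τ⁻¹ * τ₁ ^ j ∈ W)
    (hne : τ₀ ∉ W₀) (hp : ∀ x ∈ I, ∃ k : ℕ, x ^ (ℓ ^ k) ∈ W) :
    ∀ τ ∈ I, ∃ j : ℕ, τ⁻¹ * τ₀ ^ j ∈ W := by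
  have hq : ∀ (V : Subgroup G) [V.Normal] (a b : G),
      ((a : G ⧸ V) = (b : G ⧸ V)) ↔ a⁻¹ * b ∈ V := fun V _ a b => QuotientGroup.eq
  obtain ⟨a, ha⟩ := h1 τ₀ hτ₀
  have ha' : (τ₀ : G ⧸ W) = (τ₁ : G ⧸ W) ^ a := by
    rw [← QuotientGroup.mk_pow]
    exact (hq W _ _).2 ha
  have hcop : Nat.Coprime ℓ a := by
    rw [Nat.Prime.coprime_iff_not_dvd hl.out]
    rintro ⟨a', rfl⟩
    -- modulo `W₀`
    have h2 : (τ₀ : G ⧸ W₀) = (τ₁ : G ⧸ W₀) ^ (ℓ * a') := by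
      rw [← QuotientGroup.mk_pow]
      exact (hq W₀ _ _).2 (hWW ha)
    obtain ⟨c, hc⟩ := h0 τ₁ hτ₁
    have h3 : (τ₁ : G ⧸ W₀) = (τ₀ : G ⧸ W₀) ^ c := by
      rw [← QuotientGroup.mk_pow]
      exact (hq W₀ _ _).2 hc
    obtain ⟨k, hk⟩ := hp τ₀ hτ₀
    have h4 : (τ₀ : G ⧸ W₀) ^ (ℓ ^ k) = 1 := by
      rw [← QuotientGroup.mk_pow, QuotientGroup.eq_one_iff]
      exact hWW hk
    -- the order divides `ℓ ^ k` and is coprime to `ℓ`
    have h5 : (τ₀ : G ⧸ W₀) = (τ₀ : G ⧸ W₀) ^ (ℓ * (a' * c)) := by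
      conv_lhs => rw [h2, h3, ← pow_mul]
      congr 1; ring
    have h6 : ∀ m : ℕ, (τ₀ : G ⧸ W₀) = (τ₀ : G ⧸ W₀) ^ (ℓ ^ m * (a' * c) ^ m) := by
      intro m
      induction m with
      | zero => simp
      | succ m ih =>
        conv_lhs => rw [ih, h5, ← pow_mul]
        congr 1; ring
    have h7 : (τ₀ : G ⧸ W₀) = 1 := by
      rw [h6 k, pow_mul, h4, one_pow]
    exact hne ((QuotientGroup.eq_one_iff _).1 h7)
  obtain ⟨k, hk⟩ := hp τ₁ hτ₁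
  have h4 : (τ₁ : G ⧸ W) ^ (ℓ ^ k) = 1 := by
    rw [← QuotientGroup.mk_pow, QuotientGroup.eq_one_iff]
    exact hk
  have hcop' : Nat.Coprime a (ℓ ^ k) := (Nat.Coprime.pow_left k hcop).symm
  intro τ hτ
  obtain ⟨j, hj⟩ := h1 τ hτ
  have hj' : (τ : G ⧸ W) = (τ₁ : G ⧸ W) ^ j := by
    rw [← QuotientGroup.mk_pow]
    exact (hq W _ _).2 hj
  have hcop2 : Nat.Coprime a (orderOf (τ₁ : G ⧸ W)) :=
    hcop'.coprime_dvd_right (orderOf_dvd_of_pow_eq_one h4)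
  obtain ⟨m, hm⟩ := exists_pow_eq_self_of_coprime hcop2
  refine ⟨m * j, (hq W _ _).1 ?_⟩
  rw [hj', QuotientGroup.mk_pow, ha', pow_mul, hm]

theorem p_cyc : P_CYC := by
  intro K _ _ ℓ _ n ρ hρ H hHn hHo hU P hP hℓP
  classical
  have hNc : IsClosed (ρ.ker : Set (GF K)) := by
    have h1 : (ρ.ker : Set (GF K)) = ρ ⁻¹' {1} := by
      ext x
      exact MonoidHom.mem_ker
    rw [h1]
    exact isClosed_singleton.preimage hρ
  have hpow : ∀ W : Subgroup (GF K), IsOpen (W : Set (GF K)) → ρ.ker ≤ W →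
      ∀ x ∈ H, ∃ k : ℕ, x ^ (ℓ ^ k) ∈ W := by
    intro W hWo hNW x hx
    have hcomp : IsClosed (ρ '' (W : Set (GF K))ᶜ) :=
      (hWo.isClosed_compl.isCompact.image hρ).isClosed
    have h2 : (1 : Matrix (Fin n) (Fin n) ℚ_[ℓ]) ∉ ρ '' (W : Set (GF K))ᶜ := by
      rintro ⟨y, hy, hy1⟩
      exact hy (hNW hy1)
    have h3 := (hU x hx).eventually (hcomp.isOpen_compl.mem_nhds h2)
    obtain ⟨k, hk⟩ := h3.exists
    refine ⟨k, ?_⟩
    by_contra hcon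
    exact hk ⟨x ^ (ℓ ^ k), hcon, map_pow ρ x _⟩
  -- it is enough to find `τ₀` which generates modulo all small `W`
  suffices h : ∃ τ₀ ∈ IH H P, ∀ W : Subgroup (GF K), W.Normal → IsOpen (W : Set (GF K)) →
      ρ.ker ≤ W → ∀ τ ∈ IH H P, ∃ j : ℕ, τ⁻¹ * τ₀ ^ j ∈ W by
    obtain ⟨τ₀, hτ₀, h0⟩ := h
    refine ⟨τ₀, hτ₀.1, hτ₀.2, fun τ hτH hτ => ?_⟩
    rw [mem_closure_iff_nhds]
    intro O hO
    have h1 : (fun u => ρ (τ * u)) ⁻¹' O ∈ 𝓝 (1 : GF K) := by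
      apply (hρ.comp (continuous_const.mul continuous_id)).continuousAt
      simpa using hO
    obtain ⟨s, hs1, hs2, hs3⟩ := mem_nhds_iff.1 h1
    obtain ⟨U, hUs⟩ := ProfiniteGrp.exist_openNormalSubgroup_sub_open_nhds_of_one hs2 hs3
    have hUn : (U : Subgroup (GF K)).Normal := U.isNormal'
    have hUo : IsOpen (((U : Subgroup (GF K)) : Subgroup (GF K)) : Set (GF K)) := U.isOpen'
    obtain ⟨j, hj⟩ := h0 (ρ.ker ⊔ (U : Subgroup (GF K))) (Subgroup.sup_normal _ _)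
      (Subgroup.isOpen_mono le_sup_right hUo) le_sup_left τ ⟨hτH, hτ⟩
    rw [sup_comm] at hj
    obtain ⟨u, hu, a, ha, hua⟩ := Subgroup.mem_sup_of_normal_right.1 hj
    refine ⟨ρ (τ * u), hs1 (hUs hu), j, ?_⟩
    have h2 : τ₀ ^ j = τ * u * a := by
      rw [mul_assoc, hua, mul_inv_cancel_left]
    change ρ τ₀ ^ j = _
    rw [← map_pow, h2, map_mul, MonoidHom.mem_ker.1 ha, mul_one]
  by_cases hall : ∀ W : Subgroup (GF K), W.Normal → IsOpen (W : Set (GF K)) → ρ.ker ≤ W →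
      IH H P ≤ W
  · exact ⟨1, (IH H P).one_mem, fun W h1 h2 h3 τ hτ => ⟨0, by
      simpa using W.inv_mem (hall W h1 h2 h3 hτ)⟩⟩
  · push Not at hall
    obtain ⟨W₀, hW₀n, hW₀o, hNW₀, hne⟩ := hall
    obtain ⟨τ₀, hτ₀, h0⟩ := cyc1 ℓ H P hP hℓP W₀ hW₀n hW₀o (hpow W₀ hW₀o hNW₀)
    have hτ₀W : τ₀ ∉ W₀ := by
      intro h
      apply hne
      intro τ hτ
      obtain ⟨j, hj⟩ := h0 τ hτ
      have h1 := W₀.mul_mem hj (W₀.inv_mem (W₀.pow_mem h j))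
      rw [mul_inv_cancel_right] at h1
      simpa using W₀.inv_mem h1
    refine ⟨τ₀, hτ₀, fun W hWn hWo hNW τ hτ => ?_⟩
    have hn : (W ⊓ W₀).Normal := Subgroup.normal_inf_normal W W₀
    have ho : IsOpen ((W ⊓ W₀ : Subgroup (GF K)) : Set (GF K)) := hWo.inter hW₀o
    have hN : ρ.ker ≤ W ⊓ W₀ := le_inf hNW hNW₀
    obtain ⟨τ₁, hτ₁, h1⟩ := cyc1 ℓ H P hP hℓP (W ⊓ W₀) hn ho (hpow _ ho hN)
    obtain ⟨j, hj⟩ := cyc2 ℓ (GF K) (IH H P) W₀ (W ⊓ W₀) hW₀n hn inf_le_right τ₀ τ₁ hτ₀ hτ₁ h0 h1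
      hτ₀W (fun x hx => hpow _ ho hN x hx.1) τ hτ
    exact ⟨j, hj.1⟩

end Pool.Agent.W2helper85.PT
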